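import Pool.Agent.T9h20.TG.Spec2
import Pool.Agent.T9h75.TF.Alt

set_option autoImplicit false

/-! Piece (KG): the number of zeros of `F_{c'}`, without a window. -/

open MeasureTheory Set Filter Topology

namespace Pool.Agent.T9h83.TG

open Pool.Agent.T9h20.TG
open Pool.Agent.T9h20.TE (DD)
open Pool.Agent.T9h20.TF
open Pool.Agent.T9h75.TF (fc_ofReal fc_diff)

theorem gap_rep (B : Finset ℝ) (G p r : ℝ) (hG : 0 < G) (hp : p ∈ B) :
    ∃ X2 : Finset ℝ, X2.card ≤ B.card ∧ (∀ x ∈ X2, x ∈ Icc p r ∧ ∀ b ∈ B, G ≤ |x - b|) ∧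
      ∀ y ∈ Icc p r, (∀ b ∈ B, G ≤ |y - b|) → ∃ x ∈ X2,
        ∀ b ∈ B, ¬ (x < b ∧ b < y) ∧ ¬ (y < b ∧ b < x) := by
  classical
  have key : ∀ b0 : ℝ, ∃ g : ℝ, (∃ y, (y ∈ Icc p r ∧ ∀ b ∈ B, G ≤ |y - b|) ∧ b0 < y ∧
      ∀ b ∈ B, ¬ (b0 < b ∧ b < y)) → (g ∈ Icc p r ∧ ∀ b ∈ B, G ≤ |g - b|) ∧ b0 < g ∧
      ∀ b ∈ B, ¬ (b0 < b ∧ b < g) := by
    intro b0
    by_cases h : ∃ y, (y ∈ Icc p r ∧ ∀ b ∈ B, G ≤ |y - b|) ∧ b0 < y ∧ ∀ b ∈ B, ¬ (b0 < b ∧ b < y)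
    · obtain ⟨g, hg⟩ := h
      exact ⟨g, fun _ => hg⟩
    · exact ⟨0, fun h' => absurd h' h⟩
  choose g hg using key
  refine ⟨(B.filter (fun b0 => ∃ y, (y ∈ Icc p r ∧ ∀ b ∈ B, G ≤ |y - b|) ∧ b0 < y ∧
      ∀ b ∈ B, ¬ (b0 < b ∧ b < y))).image g, ?_, ?_, ?_⟩
  · exact Finset.card_image_le.trans (Finset.card_filter_le _ _)
  · intro x hx
    obtain ⟨b0, hb0, rfl⟩ := Finset.mem_image.1 hx
    exact (hg b0 (Finset.mem_filter.1 hb0).2).1
  · intro y hy hyB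
    have hpy : p < y := by
      rcases lt_or_eq_of_le hy.1 with h | h
      · exact h
      · have := hyB p hp
        rw [← h, sub_self, abs_zero] at this
        linarith
    obtain ⟨b0, hb0, hmax⟩ := Finset.exists_max_image (B.filter (fun b => b < y)) id
      ⟨p, Finset.mem_filter.2 ⟨hp, hpy⟩⟩
    rw [Finset.mem_filter] at hb0
    have hex : ∃ y, (y ∈ Icc p r ∧ ∀ b ∈ B, G ≤ |y - b|) ∧ b0 < y ∧
        ∀ b ∈ B, ¬ (b0 < b ∧ b < y) := by
      refine ⟨y, ⟨hy, hyB⟩, hb0.2, fun b hb h => ?_⟩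
      exact absurd (hmax b (Finset.mem_filter.2 ⟨hb, h.2⟩)) (not_le.2 h.1)
    have hg0 := hg b0 hex
    refine ⟨g b0, Finset.mem_image.2 ⟨b0, Finset.mem_filter.2 ⟨hb0.1, hex⟩, rfl⟩, fun b hb => ⟨?_, ?_⟩⟩
    · rintro ⟨h1, h2⟩
      exact absurd (hmax b (Finset.mem_filter.2 ⟨hb, h2⟩)) (not_le.2 (hg0.2.1.trans h1))
    · rintro ⟨h1, h2⟩
      exact hg0.2.2 b hb ⟨hb0.2.trans h1, h2⟩

theorem sCountG (hC : SCovG) (hL : SLocG) (hB : SBdU) (hGap : SGap) (hD : SDec) (hZ : SZero) :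
    SCountG := by
  intro k q t m _ b d al c a D M G hD0 hM hG0 hal hd ha hc hb
  classical
  obtain ⟨d', hd'⟩ : ∃ d' : Fin k → ℝ, d' = fun i => (d i : ℝ) := ⟨_, rfl⟩
  obtain ⟨a', ha'⟩ : ∃ a' : Fin q → Fin t → ℝ, a' = fun j s => (a j s : ℝ) := ⟨_, rfl⟩
  have hdd : ∀ i, 0 ≤ d' i ∧ d' i ≤ D := fun i => by rw [hd']; exact ⟨Nat.cast_nonneg _, hd i⟩
  have haa : ∀ j s, 0 ≤ a' j s ∧ a' j s ≤ D := fun j s => by
    rw [ha']; exact ⟨Nat.cast_nonneg _, ha j s⟩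
  have hGap' := hGap k q t m b d al c a hal
  rw [← hd', ← ha']
  obtain ⟨X0, nx, s0, hX0, hx, hcov, hdom⟩ := hD q t c a' hc M hM
  have hm : (0 : ℝ) < (m + 1) * D := by positivity
  obtain ⟨η, hη⟩ : ∃ η : ℝ, η = 1 / ((m + 1) * D) := ⟨_, rfl⟩
  have hη0 : 0 < η := by rw [hη]; positivity
  have hηG : 4 * G / η = 4 * G * ((m + 1) * D) := by
    rw [hη, div_div_eq_mul_div, div_one]
  have hlog : 0 ≤ Real.log (1 + 4 * G * ((m + 1) * D)) := by
    apply Real.log_nonneg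
    have : 0 ≤ 4 * G * ((m + 1) * D) := by positivity
    linarith
  obtain ⟨L, hLL⟩ : ∃ L : ℝ, L = Real.log (1 + 4 * G * ((m + 1) * D)) := ⟨_, rfl⟩
  rw [← hLL] at hlog
  rw [← hLL]
  have key : ∀ x0 : ℝ, ∃ B X1 X2 : Finset ℝ, x0 ∈ X0 →
      (∀ y ∈ Icc x0 (nx x0), ∀ R : ℝ, 0 < R → (∀ x' ∈ B, R ≤ (η + |y - x'|) / 2) →
        ∃ (i0 : Fin k) (E : ℝ), ∀ (f : ℂ → ℂ) (T : ℝ), 0 ≤ T →
          (∀ z, ‖f z‖ ≤ T * ∑ i, MM b d' al c a' i z.re) → ∀ z : ℂ, ‖z - y‖ ≤ R →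
            ‖f z * Complex.exp (-(E * (z - y)))‖ ≤ 3 * (k * T) * MM b d' al c a' i0 y) ∧
      (∀ x ∈ X1, x0 ≤ x ∧ x ≤ nx x0) ∧
      ((X1 ∪ X2).card : ℝ) ≤ 2 * ((k : ℝ) ^ 2 + 2) * (40 * ((k : ℝ) ^ 2 + 2) * L + 2) ∧
      ∀ y ∈ Icc x0 (nx x0), (∃ x ∈ X1, ∀ b ∈ B, |y - x| ≤ (η + |x - b|) / 8) ∨
        ∃ x ∈ X2, ∀ c' : Fin q → Fin t → ℝ, (∀ j s, |c' j s| ≤ 2 * |c j s|) →
          Fr b d' al c' a' y = 0 → ∃ i : Fin k, |Fr b d' al c' a' x| ≤
            2 * (k * (m + 1) * (2 * t : ℝ) ^ m) * Real.exp (-G) * MM b d' al c a' i x := by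
    intro x0
    by_cases h0 : x0 ∈ X0
    · have hdom' := hdom x0 h0
      obtain ⟨B1, hB1, hB2, hB3⟩ := hL k q t m b d' al c a' D hD0 hal hdd haa (s0 x0) x0 (nx x0)
        (hx x0 h0).1 hc hb hdom'
      rw [ha'] at hdom'
      obtain ⟨B2, hC1, hC2, hC3, hC4, hC5⟩ := hGap' (s0 x0) x0 (nx x0) (hx x0 h0).1 hc hb hdom'
      rw [← hd', ← ha'] at hC5
      have hBm : ∀ x ∈ B1 ∪ B2, x0 ≤ x ∧ x ≤ nx x0 := fun x hxB => by
        rcases Finset.mem_union.1 hxB with h | h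
        · exact hB2 x h
        · exact hC4 x h
      obtain ⟨X1, h1, h2, h3⟩ := hC (B1 ∪ B2) η G x0 (nx x0) hη0 hG0 (hx x0 h0).1.le hBm
      obtain ⟨X2, h4, h5, h6⟩ := gap_rep (B1 ∪ B2) G x0 (nx x0) hG0 (Finset.mem_union_right _ hC2)
      refine ⟨B1 ∪ B2, X1, X2, fun _ => ⟨?_, h1, ?_, fun y hy => ?_⟩⟩
      · intro y hy R hR hRB
        exact hB3 y hy R hR (fun x' hx' => by rw [← hη]; exact hRB x' (Finset.mem_union_left _ hx'))
      · rw [hηG, ← hLL] at h2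
        have hcard : ((B1 ∪ B2).card : ℝ) ≤ 2 * ((k : ℝ) ^ 2 + 2) := by
          have : (B1 ∪ B2).card ≤ 2 * (k ^ 2 + 2) := (Finset.card_union_le _ _).trans (by omega)
          exact_mod_cast this
        have hc0 : (0 : ℝ) ≤ (B1 ∪ B2).card := Nat.cast_nonneg _
        have h7 : ((X1 ∪ X2).card : ℝ) ≤ X1.card + X2.card := by
          exact_mod_cast Finset.card_union_le _ _
        have h8 : (X2.card : ℝ) ≤ (B1 ∪ B2).card := by exact_mod_cast h4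
        calc ((X1 ∪ X2).card : ℝ) ≤ ((B1 ∪ B2).card : ℝ) * (20 * (B1 ∪ B2).card * L + 1) +
              (B1 ∪ B2).card := by linarith
          _ = ((B1 ∪ B2).card : ℝ) * (20 * (B1 ∪ B2).card * L + 2) := by ring
          _ ≤ (2 * ((k : ℝ) ^ 2 + 2)) * (20 * (2 * ((k : ℝ) ^ 2 + 2)) * L + 2) := by gcongr
          _ = _ := by ring
      · by_cases hnear : ∃ b ∈ B1 ∪ B2, |y - b| < G
        · exact Or.inl (h3 y hy hnear)
        · push Not at hnear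
          obtain ⟨x, hx2, hxb⟩ := h6 y hy hnear
          refine Or.inr ⟨x, hx2, fun c' hc' hz => ?_⟩
          exact hC5 c' hc' G x y hG0 (h5 x hx2).1 hy
            (fun x' hx' => ⟨(h5 x hx2).2 x' (Finset.mem_union_right _ hx'),
              hnear x' (Finset.mem_union_right _ hx')⟩)
            (fun x' hx' => hxb x' (Finset.mem_union_right _ hx')) hz
    · exact ⟨∅, ∅, ∅, fun h => absurd h h0⟩
  choose B X1 X2 hK using key
  refine ⟨insert 0 (X0.biUnion (fun x => X1 x ∪ X2 x)), Finset.insert_nonempty _ _, ?_, ?_⟩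
  · have h9 : ((X0.biUnion (fun x => X1 x ∪ X2 x)).card : ℝ) ≤
        (2 * q * t + 1) * (2 * ((k : ℝ) ^ 2 + 2) * (40 * ((k : ℝ) ^ 2 + 2) * L + 2)) := by
      calc ((X0.biUnion (fun x => X1 x ∪ X2 x)).card : ℝ) ≤ ∑ x ∈ X0, ((X1 x ∪ X2 x).card : ℝ) := by
            exact_mod_cast Finset.card_biUnion_le
        _ ≤ ∑ _x ∈ X0, (2 * ((k : ℝ) ^ 2 + 2) * (40 * ((k : ℝ) ^ 2 + 2) * L + 2)) :=
            Finset.sum_le_sum fun x hxX => (hK x hxX).2.2.1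
        _ = (X0.card : ℝ) * (2 * ((k : ℝ) ^ 2 + 2) * (40 * ((k : ℝ) ^ 2 + 2) * L + 2)) := by
            rw [Finset.sum_const, nsmul_eq_mul]
        _ ≤ _ := by
            refine mul_le_mul_of_nonneg_right ?_ (by positivity)
            exact_mod_cast hX0
    have h10 : ((insert 0 (X0.biUnion (fun x => X1 x ∪ X2 x))).card : ℝ) ≤
        (X0.biUnion (fun x => X1 x ∪ X2 x)).card + 1 := by
      exact_mod_cast Finset.card_insert_le _ _
    linarith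
  · intro c' hc' n hlow hgap Z hZm
    have hsub : Z ⊆ (insert 0 (X0.biUnion (fun x => X1 x ∪ X2 x))).biUnion
        (fun x => Z.filter (fun z => ∃ x0 ∈ X0, x ∈ X1 x0 ∧
          ∀ b ∈ B x0, |z - x| ≤ (η + |x - b|) / 8)) := by
      intro z hz
      obtain ⟨x0, h0, hz0⟩ := hcov z (hZm z hz).1
      rcases (hK x0 h0).2.2.2 z ⟨hz0.1, hz0.2.le⟩ with ⟨x, hx1, hx2⟩ | ⟨x, hx1, hx2⟩
      · exact Finset.mem_biUnion.2 ⟨x, Finset.mem_insert_of_mem (Finset.mem_biUnion.2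
          ⟨x0, h0, Finset.mem_union_left _ hx1⟩), Finset.mem_filter.2 ⟨hz, x0, h0, hx1, hx2⟩⟩
      · exfalso
        obtain ⟨i, hi⟩ := hx2 c' hc' (hZm z hz).2
        exact absurd hi (not_le.2 (hgap x (Finset.mem_insert_of_mem (Finset.mem_biUnion.2
          ⟨x0, h0, Finset.mem_union_right _ hx1⟩)) i))
    refine (Finset.card_le_card hsub).trans (Finset.card_biUnion_le_card_mul _ _ _ fun x hxX => ?_)
    obtain ⟨W, hW⟩ : ∃ W : Finset ℝ, W = Z.filter (fun z => ∃ x0 ∈ X0, x ∈ X1 x0 ∧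
        ∀ b ∈ B x0, |z - x| ≤ (η + |x - b|) / 8) := ⟨_, rfl⟩
    rw [← hW]
    rcases W.eq_empty_or_nonempty with h0 | h0
    · rw [h0]; simp
    · obtain ⟨z1, hz1, hmax⟩ := Finset.exists_max_image W (fun z => |z - x|) h0
      have hz1' := hz1
      rw [hW, Finset.mem_filter] at hz1'
      obtain ⟨-, x0, hx0, hx1, hx2⟩ := hz1'
      obtain ⟨R, hR⟩ : ∃ R : ℝ, R = max (4 * |z1 - x|) (η / 2) := ⟨_, rfl⟩
      have hR0 : 0 < R := by rw [hR]; exact lt_max_of_lt_right (by positivity)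
      obtain ⟨i0, E, hE⟩ := (hK x0 hx0).1 x ((hK x0 hx0).2.1 x hx1) R hR0 (fun x' hx' => by
        have h1 := hx2 x' hx'
        have h2 := abs_nonneg (x - x')
        rw [hR]
        exact max_le (by linarith) (by linarith))
      have hE2 := hE (Fc b d' al c' a') ((2 * t : ℝ) ^ m) (by positivity)
        (hB k q t m b d' al c c' a' hal hc')
      by_contra hcon
      push Not at hcon
      have hexp : Differentiable ℂ (fun z : ℂ => Complex.exp (-((E : ℂ) * (z - (x : ℂ))))) := by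
        fun_prop
      have hmain := hZ (fun z => Fc b d' al c' a' z * Complex.exp (-((E : ℂ) * (z - (x : ℂ)))))
        (x : ℂ) R (3 * (k * (2 * t : ℝ) ^ m) * MM b d' al c a' i0 x)
        (W.map ⟨fun x : ℝ => (x : ℂ), Complex.ofReal_injective⟩) hR0
        ((fc_diff b d' al c' a').mul hexp) (fun z hz => hE2 z hz) ?_
      · rw [Finset.card_map] at hmain
        simp only [sub_self, mul_zero, neg_zero, Complex.exp_zero, mul_one, fc_ofReal,
          Complex.norm_real, Real.norm_eq_abs] at hmain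
        have hlow' := hlow x hxX i0
        obtain ⟨M, hM⟩ : ∃ M : ℝ, M = 3 * (k * (2 * t : ℝ) ^ m) * MM b d' al c a' i0 x := ⟨_, rfl⟩
        rw [← hM] at hmain hlow'
        have hM0 : 0 ≤ M := by
          by_contra hneg
          push Not at hneg
          have h1 : M * (1 / 3) ^ W.card < 0 := mul_neg_of_neg_of_pos hneg (by positivity)
          have h2 := abs_nonneg (Fr b d' al c' a' x)
          linarith
        have h3 : (1 / 3 : ℝ) ^ W.card ≤ (1 / 3) ^ (n + 1) :=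
          pow_le_pow_of_le_one (by norm_num) (by norm_num) hcon
        have h4 : |Fr b d' al c' a' x| ≤ M * (1 / 3) ^ (n + 1) :=
          hmain.trans (mul_le_mul_of_nonneg_left h3 hM0)
        have h5 : |Fr b d' al c' a' x| * 3 ^ (n + 1) ≤ M := by
          have h6 : (0 : ℝ) < 3 ^ (n + 1) := by positivity
          calc |Fr b d' al c' a' x| * 3 ^ (n + 1) ≤ M * (1 / 3) ^ (n + 1) * 3 ^ (n + 1) :=
                mul_le_mul_of_nonneg_right h4 h6.le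
            _ = M * ((1 / 3) ^ (n + 1) * 3 ^ (n + 1)) := by ring
            _ = M := by rw [← mul_pow]; norm_num
        linarith
      · intro z hz
        obtain ⟨y, hy, rfl⟩ := Finset.mem_map.1 hz
        have hy2 := hmax y hy
        have hyZ : Fr b d' al c' a' y = 0 := by
          rw [hW, Finset.mem_filter] at hy
          exact (hZm y hy.1).2
        refine ⟨?_, ?_⟩
        · show ‖(y : ℂ) - (x : ℂ)‖ ≤ R / 4
          rw [← Complex.ofReal_sub, Complex.norm_real, Real.norm_eq_abs]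
          have : 4 * |z1 - x| ≤ R := by rw [hR]; exact le_max_left _ _
          have h7 : |y - x| ≤ |z1 - x| := hy2
          linarith
        · show Fc b d' al c' a' (y : ℂ) * Complex.exp (-((E : ℂ) * ((y : ℂ) - (x : ℂ)))) = 0
          rw [fc_ofReal, hyZ]
          simp

end Pool.Agent.T9h83.TG
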