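import Pool.Agent.T9h20.TG.Spec2

set_option autoImplicit false

/-! Piece (MG): several variables, with the point named. -/

namespace Pool.Agent.T9h83.TG

open Pool.Agent.T9h20.TG

theorem mvG_fin (h1 : SOneG) (ι : Type) [Fintype ι] (d K : ℕ) (ρ : ℝ) (hρ : 0 < ρ) (hρ1 : ρ ≤ 1)
    (hK : Fintype.card ι ≤ K) :
    ∀ (n : ℕ) (P : ι → MvPolynomial (Fin n) ℝ) (v : ι → Fin n →₀ ℕ),
      (∀ i s, (P i).degreeOf s ≤ d) →
      ∃ l : Fin n → ℕ, (∀ s, l s ≤ K * d) ∧ ∀ i, |(P i).coeff (v i)| ≤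
        ((d + 1) * (3 * (K * d + 1) / ρ) ^ d) ^ n *
          |MvPolynomial.eval (fun s => 1 + ρ * l s / (K * d + 1)) (P i)| := by
  intro n
  have hC : (0 : ℝ) ≤ (d + 1) * (3 * (K * d + 1) / ρ) ^ d := by positivity
  induction n with
  | zero =>
    intro P v _
    refine ⟨fun s => s.elim0, fun s => s.elim0, fun i => ?_⟩
    rw [pow_zero, one_mul]
    have h : P i = MvPolynomial.C ((P i).coeff 0) := MvPolynomial.eq_C_of_isEmpty (P i)
    have hv : v i = 0 := Subsingleton.elim _ _
    rw [hv]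
    conv_rhs => rw [h]
    rw [MvPolynomial.eval_C]
  | succ n ih =>
    intro P v hP
    obtain ⟨l', hl', hz2⟩ := ih (fun i => Polynomial.coeff (MvPolynomial.finSuccEquiv ℝ n (P i)) (v i 0))
      (fun i => (v i).tail) (fun i s => (MvPolynomial.degreeOf_coeff_finSuccEquiv (P i) s _).trans (hP i s.succ))
    obtain ⟨z', hz'⟩ : ∃ z' : Fin n → ℝ, z' = fun s => 1 + ρ * l' s / (K * d + 1) := ⟨_, rfl⟩
    rw [← hz'] at hz2
    obtain ⟨l0, h01, h03⟩ := h1 ι
      (fun i => Polynomial.map (MvPolynomial.eval z') (MvPolynomial.finSuccEquiv ℝ n (P i))) (fun i => v i 0) d K ρ hρ hρ1 hK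
      (fun i => Polynomial.natDegree_map_le.trans (by
        rw [MvPolynomial.natDegree_finSuccEquiv]
        exact hP i 0))
    refine ⟨Fin.cons l0 l', fun s => ?_, fun i => ?_⟩
    · refine Fin.cases ?_ (fun j => ?_) s
      · exact h01
      · exact hl' j
    · have a1 := hz2 i
      have a2 := h03 i
      rw [MvPolynomial.finSuccEquiv_coeff_coeff, Finsupp.cons_tail] at a1
      rw [Polynomial.coeff_map] at a2
      have e : (fun s : Fin (n + 1) => 1 + ρ * ((Fin.cons l0 l' : Fin (n + 1) → ℕ) s : ℝ) / (K * d + 1)) =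
          (Fin.cons (1 + ρ * l0 / (K * d + 1)) z' : Fin (n + 1) → ℝ) := by
        funext s
        refine Fin.cases ?_ (fun j => ?_) s
        · rfl
        · rw [Fin.cons_succ, Fin.cons_succ, hz']
      rw [e, MvPolynomial.eval_eq_eval_mv_eval']
      calc |(P i).coeff (v i)| ≤ _ := a1
        _ ≤ ((d + 1) * (3 * (K * d + 1) / ρ) ^ d) ^ n *
            (((d + 1) * (3 * (K * d + 1) / ρ) ^ d) *
              |Polynomial.eval (1 + ρ * l0 / (K * d + 1))
                (Polynomial.map (MvPolynomial.eval z') (MvPolynomial.finSuccEquiv ℝ n (P i)))|) :=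
          mul_le_mul_of_nonneg_left a2 (pow_nonneg hC n)
        _ = _ := by rw [pow_succ]; ring

theorem sMvG : SOneG → SMvG := by
  intro h1 ι σ _ _ P v d K ρ hρ hρ1 hK hP
  set e := Fintype.equivFin σ with he
  obtain ⟨l, hl, hz2⟩ := mvG_fin h1 ι d K ρ hρ hρ1 hK (Fintype.card σ) (fun i => MvPolynomial.rename e (P i))
    (fun i => (v i).mapDomain e) (fun i s => by
      have h := MvPolynomial.degreeOf_rename_of_injective (p := P i) e.injective (e.symm s)
      rw [Equiv.apply_symm_apply] at h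
      rw [h]
      exact hP i _)
  refine ⟨fun s => l (e s), fun s => hl _, fun i => ?_⟩
  have h := hz2 i
  rw [MvPolynomial.coeff_rename_mapDomain e e.injective, MvPolynomial.eval_rename] at h
  exact h

end Pool.Agent.T9h83.TG
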