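import Pool.Agent.T9h20.TG.Spec
import Pool.Agent.T9h75.TF.Alt

set_option autoImplicit false

/-! Piece (K): the number of zeros of `F_{c'}`. -/

open MeasureTheory Set Filter Topology

namespace Pool.Agent.T9h83.TG

open Pool.Agent.T9h20.TG
open Pool.Agent.T9h20.TE (DD)
open Pool.Agent.T9h20.TF
open Pool.Agent.T9h75.TF (fc_ofReal fc_diff)

theorem sCount (hC : SCov) (hG : SLocG) (hB : SBdU) (hD : SDec) (hZ : SZero) : SCount := by
  intro k q t m _ b d al c a D Y hD0 hY hal hd ha hc hb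
  classical
  obtain ⟨X0, nx, s0, hX0, hx, hcov, hdom⟩ := hD q t c a hc Y hY
  have hm : (0 : ℝ) < (m + 1) * D := by positivity
  obtain ⟨η, hη⟩ : ∃ η : ℝ, η = 1 / ((m + 1) * D) := ⟨_, rfl⟩
  have hη0 : 0 < η := by rw [hη]; positivity
  have hηY : 2 * Y / η = 2 * Y * ((m + 1) * D) := by
    rw [hη, div_div_eq_mul_div, div_one]
  have hlog : 0 ≤ Real.log (1 + 2 * Y * ((m + 1) * D)) := by
    apply Real.log_nonneg
    have : 0 ≤ 2 * Y * ((m + 1) * D) := by positivity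
    linarith
  have key : ∀ x0 : ℝ, ∃ B X1 : Finset ℝ, x0 ∈ X0 → B.card ≤ k ^ 2 + 2 ∧
      (∀ y ∈ Icc x0 (nx x0), ∀ R : ℝ, 0 < R → (∀ x' ∈ B, R ≤ (η + |y - x'|) / 2) →
        ∃ (i0 : Fin k) (E : ℝ), ∀ (f : ℂ → ℂ) (T : ℝ), 0 ≤ T →
          (∀ z, ‖f z‖ ≤ T * ∑ i, MM b d al c a i z.re) → ∀ z : ℂ, ‖z - y‖ ≤ R →
            ‖f z * Complex.exp (-(E * (z - y)))‖ ≤ 3 * (k * T) * MM b d al c a i0 y) ∧
      (∀ x ∈ X1, x0 ≤ x ∧ x ≤ nx x0) ∧
      (X1.card : ℝ) ≤ 20 * ((k : ℝ) ^ 2 + 2) * Real.log (1 + 2 * Y * ((m + 1) * D)) + 1 ∧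
      ∀ y ∈ Icc x0 (nx x0), ∃ x ∈ X1, ∀ b ∈ B, |y - x| ≤ (η + |x - b|) / 8 := by
    intro x0
    by_cases h0 : x0 ∈ X0
    · obtain ⟨B, hB1, hB2, hB3⟩ := hG k q t m b d al c a D hD0 hal hd ha (s0 x0) x0 (nx x0)
        (hx x0 h0).1 hc hb (hdom x0 h0)
      obtain ⟨X1, h1, h2, h3⟩ := hC B η Y x0 (nx x0) hη0 hY (hx x0 h0).2.1 (hx x0 h0).1.le
        (hx x0 h0).2.2 (fun x hxB => abs_le.2
          ⟨(hx x0 h0).2.1.trans (hB2 x hxB).1, (hB2 x hxB).2.trans (hx x0 h0).2.2⟩)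
      refine ⟨B, X1, fun _ => ⟨hB1, ?_, h1, ?_, h3⟩⟩
      · rw [hη]; exact hB3
      · rw [hηY] at h2
        have hcard : (B.card : ℝ) ≤ (k : ℝ) ^ 2 + 2 := by exact_mod_cast hB1
        refine h2.trans ?_
        gcongr
    · exact ⟨∅, ∅, fun h => absurd h h0⟩
  choose B X1 hK using key
  refine ⟨X0.biUnion X1, ?_, ?_⟩
  · calc ((X0.biUnion X1).card : ℝ) ≤ ∑ x ∈ X0, ((X1 x).card : ℝ) := by
          exact_mod_cast Finset.card_biUnion_le
      _ ≤ ∑ _x ∈ X0, (20 * ((k : ℝ) ^ 2 + 2) * Real.log (1 + 2 * Y * ((m + 1) * D)) + 1) :=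
          Finset.sum_le_sum fun x hxX => (hK x hxX).2.2.2.1
      _ = (X0.card : ℝ) * (20 * ((k : ℝ) ^ 2 + 2) * Real.log (1 + 2 * Y * ((m + 1) * D)) + 1) := by
          rw [Finset.sum_const, nsmul_eq_mul]
      _ ≤ _ := by
          refine mul_le_mul_of_nonneg_right ?_ (by positivity)
          exact_mod_cast hX0
  · intro c' hc' n hlow Z hZm
    have hsub : Z ⊆ (X0.biUnion X1).biUnion (fun x => Z.filter (fun z => ∃ x0 ∈ X0, x ∈ X1 x0 ∧
        ∀ b ∈ B x0, |z - x| ≤ (η + |x - b|) / 8)) := by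
      intro z hz
      obtain ⟨x0, h0, hz0⟩ := hcov z (hZm z hz).1
      obtain ⟨x, hx1, hx2⟩ := (hK x0 h0).2.2.2.2 z ⟨hz0.1, hz0.2.le⟩
      exact Finset.mem_biUnion.2 ⟨x, Finset.mem_biUnion.2 ⟨x0, h0, hx1⟩,
        Finset.mem_filter.2 ⟨hz, x0, h0, hx1, hx2⟩⟩
    refine (Finset.card_le_card hsub).trans (Finset.card_biUnion_le_card_mul _ _ _ fun x hxX => ?_)
    obtain ⟨W, hW⟩ : ∃ W : Finset ℝ, W = Z.filter (fun z => ∃ x0 ∈ X0, x ∈ X1 x0 ∧
        ∀ b ∈ B x0, |z - x| ≤ (η + |x - b|) / 8) := ⟨_, rfl⟩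
    rw [← hW]
    rcases W.eq_empty_or_nonempty with h0 | h0
    · rw [h0]; simp
    · obtain ⟨z1, hz1, hmax⟩ := Finset.exists_max_image W (fun z => |z - x|) h0
      have hz1' := hz1
      rw [hW, Finset.mem_filter] at hz1'
      obtain ⟨-, x0, hx0, hx1, hx2⟩ := hz1'
      obtain ⟨R, hR⟩ : ∃ R : ℝ, R = max (4 * |z1 - x|) (η / 2) := ⟨_, rfl⟩
      have hR0 : 0 < R := by rw [hR]; exact lt_max_of_lt_right (by positivity)
      obtain ⟨i0, E, hE⟩ := (hK x0 hx0).2.1 x ((hK x0 hx0).2.2.1 x hx1) R hR0 (fun x' hx' => by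
        have h1 := hx2 x' hx'
        have h2 := abs_nonneg (x - x')
        rw [hR]
        exact max_le (by linarith) (by linarith))
      have hE2 := hE (Fc b d al c' a) ((2 * t : ℝ) ^ m) (by positivity)
        (hB k q t m b d al c c' a hal hc')
      by_contra hcon
      push Not at hcon
      have hexp : Differentiable ℂ (fun z : ℂ => Complex.exp (-((E : ℂ) * (z - (x : ℂ))))) := by
        fun_prop
      have hmain := hZ (fun z => Fc b d al c' a z * Complex.exp (-((E : ℂ) * (z - (x : ℂ)))))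
        (x : ℂ) R (3 * (k * (2 * t : ℝ) ^ m) * MM b d al c a i0 x)
        (W.map ⟨fun x : ℝ => (x : ℂ), Complex.ofReal_injective⟩) hR0
        ((fc_diff b d al c' a).mul hexp) (fun z hz => hE2 z hz) ?_
      · rw [Finset.card_map] at hmain
        simp only [sub_self, mul_zero, neg_zero, Complex.exp_zero, mul_one, fc_ofReal,
          Complex.norm_real, Real.norm_eq_abs] at hmain
        have hlow' := hlow x hxX i0
        obtain ⟨M, hM⟩ : ∃ M : ℝ, M = 3 * (k * (2 * t : ℝ) ^ m) * MM b d al c a i0 x := ⟨_, rfl⟩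
        rw [← hM] at hmain hlow'
        have hM0 : 0 ≤ M := by
          by_contra hneg
          push Not at hneg
          have h1 : M * (1 / 3) ^ W.card < 0 := mul_neg_of_neg_of_pos hneg (by positivity)
          have h2 := abs_nonneg (Fr b d al c' a x)
          linarith
        have h3 : (1 / 3 : ℝ) ^ W.card ≤ (1 / 3) ^ (n + 1) :=
          pow_le_pow_of_le_one (by norm_num) (by norm_num) hcon
        have h4 : |Fr b d al c' a x| ≤ M * (1 / 3) ^ (n + 1) :=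
          hmain.trans (mul_le_mul_of_nonneg_left h3 hM0)
        have h5 : |Fr b d al c' a x| * 3 ^ (n + 1) ≤ M := by
          have h6 : (0 : ℝ) < 3 ^ (n + 1) := by positivity
          calc |Fr b d al c' a x| * 3 ^ (n + 1) ≤ M * (1 / 3) ^ (n + 1) * 3 ^ (n + 1) :=
                mul_le_mul_of_nonneg_right h4 h6.le
            _ = M * ((1 / 3) ^ (n + 1) * 3 ^ (n + 1)) := by ring
            _ = M := by rw [← mul_pow]; norm_num
        linarith
      · intro z hz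
        obtain ⟨y, hy, rfl⟩ := Finset.mem_map.1 hz
        have hy2 := hmax y hy
        have hyZ : Fr b d al c' a y = 0 := by
          rw [hW, Finset.mem_filter] at hy
          exact (hZm y hy.1).2
        refine ⟨?_, ?_⟩
        · show ‖(y : ℂ) - (x : ℂ)‖ ≤ R / 4
          rw [← Complex.ofReal_sub, Complex.norm_real, Real.norm_eq_abs]
          have : 4 * |z1 - x| ≤ R := by rw [hR]; exact le_max_left _ _
          have h7 : |y - x| ≤ |z1 - x| := hy2
          linarith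
        · show Fc b d al c' a (y : ℂ) * Complex.exp (-((E : ℂ) * ((y : ℂ) - (x : ℂ)))) = 0
          rw [fc_ofReal, hyZ]
          simp

end Pool.Agent.T9h83.TG
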