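import Pool.Agent.T9h20.TG.Spec

set_option autoImplicit false

/-! Piece (M): several variables, by induction on the number of variables. -/

namespace Pool.Agent.T9h83.TG

open Pool.Agent.T9h20.TG

theorem mv_fin (h1 : SOne) (ι : Type) [Fintype ι] (d : ℕ) (ρ : ℝ) (hρ : 0 < ρ) (hρ1 : ρ ≤ 1) :
    ∀ (n : ℕ) (P : ι → MvPolynomial (Fin n) ℝ) (v : ι → Fin n →₀ ℕ),
      (∀ i s, (P i).degreeOf s ≤ d) →
      ∃ z : Fin n → ℝ, (∀ s, 1 ≤ z s ∧ z s ≤ 1 + ρ) ∧ ∀ i, |(P i).coeff (v i)| ≤
        ((d + 1) * (3 * (Fintype.card ι * d + 1) / ρ) ^ d) ^ n * |MvPolynomial.eval z (P i)| := by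
  intro n
  have hC : (0 : ℝ) ≤ (d + 1) * (3 * (Fintype.card ι * d + 1) / ρ) ^ d := by positivity
  induction n with
  | zero =>
    intro P v _
    refine ⟨fun s => s.elim0, fun s => s.elim0, fun i => ?_⟩
    rw [pow_zero, one_mul]
    have h : P i = MvPolynomial.C ((P i).coeff 0) := MvPolynomial.eq_C_of_isEmpty (P i)
    have hv : v i = 0 := Subsingleton.elim _ _
    rw [hv]
    conv_rhs => rw [h]
    rw [MvPolynomial.eval_C]
  | succ n ih =>
    intro P v hP
    obtain ⟨z', hz', hz2⟩ := ih (fun i => Polynomial.coeff (MvPolynomial.finSuccEquiv ℝ n (P i)) (v i 0))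
      (fun i => (v i).tail) (fun i s => (MvPolynomial.degreeOf_coeff_finSuccEquiv (P i) s _).trans (hP i s.succ))
    obtain ⟨z0, h01, h02, h03⟩ := h1 ι
      (fun i => Polynomial.map (MvPolynomial.eval z') (MvPolynomial.finSuccEquiv ℝ n (P i))) (fun i => v i 0) d ρ hρ hρ1
      (fun i => Polynomial.natDegree_map_le.trans (by
        rw [MvPolynomial.natDegree_finSuccEquiv]
        exact hP i 0))
    refine ⟨Fin.cons z0 z', fun s => ?_, fun i => ?_⟩
    · refine Fin.cases ?_ (fun j => ?_) s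
      · exact ⟨h01, h02⟩
      · exact hz' j
    · have a1 := hz2 i
      have a2 := h03 i
      rw [MvPolynomial.finSuccEquiv_coeff_coeff, Finsupp.cons_tail] at a1
      rw [Polynomial.coeff_map] at a2
      rw [MvPolynomial.eval_eq_eval_mv_eval']
      calc |(P i).coeff (v i)| ≤ _ := a1
        _ ≤ ((d + 1) * (3 * (Fintype.card ι * d + 1) / ρ) ^ d) ^ n *
            (((d + 1) * (3 * (Fintype.card ι * d + 1) / ρ) ^ d) *
              |Polynomial.eval z0 (Polynomial.map (MvPolynomial.eval z') (MvPolynomial.finSuccEquiv ℝ n (P i)))|) :=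
          mul_le_mul_of_nonneg_left a2 (pow_nonneg hC n)
        _ = _ := by rw [pow_succ]; ring

theorem sMv : SOne → SMv := by
  intro h1 ι σ _ _ P v d ρ hρ hρ1 hP
  set e := Fintype.equivFin σ with he
  obtain ⟨z, hz, hz2⟩ := mv_fin h1 ι d ρ hρ hρ1 (Fintype.card σ) (fun i => MvPolynomial.rename e (P i))
    (fun i => (v i).mapDomain e) (fun i s => by
      have h := MvPolynomial.degreeOf_rename_of_injective (p := P i) e.injective (e.symm s)
      rw [Equiv.apply_symm_apply] at h
      rw [h]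
      exact hP i _)
  refine ⟨fun s => z (e s), fun s => hz _, fun i => ?_⟩
  have h := hz2 i
  rw [MvPolynomial.coeff_rename_mapDomain e e.injective, MvPolynomial.eval_rename] at h
  exact h

end Pool.Agent.T9h83.TG
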